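import Pool.Agent.Q267.E8.Stm

set_option autoImplicit false

/-!
Project E8 (helper267), job CN (helper144): the number of `i < N` with `z^i + z^(-i) = s`.
-/

namespace Pool.Agent.Q144.E8

open Finset Pool.Agent.Q267.CDE Pool.Agent.Q267.MW Pool.Agent.Q267.E8

theorem fix_frob {K : Type} [Field K] (p : ℕ) [Fact p.Prime] [Algebra (ZMod p) K] (x : K)
    (hx : x ^ p = x) : ∃ a : ZMod p, algebraMap (ZMod p) K a = x := by
  classical
  by_contra hcon
  push Not at hcon
  have hp1 : 1 < p := (Fact.out : p.Prime).one_lt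
  let P : Polynomial K := Polynomial.X ^ p - Polynomial.X
  have hdeg : P.natDegree = p := FiniteField.X_pow_card_sub_X_natDegree_eq K hp1
  have hinj : Function.Injective (algebraMap (ZMod p) K) := (algebraMap (ZMod p) K).injective
  let S : Finset K := insert x (univ.image (algebraMap (ZMod p) K))
  have hS : S.card = p + 1 := by
    rw [card_insert_of_notMem, card_image_of_injective _ hinj, card_univ, ZMod.card]
    intro h
    obtain ⟨a, -, ha⟩ := mem_image.1 h
    exact hcon a ha
  have hP : P = 0 := by
    apply Polynomial.eq_zero_of_natDegree_lt_card_of_eval_eq_zero' P S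
    · intro y hy
      simp only [P, Polynomial.eval_sub, Polynomial.eval_pow, Polynomial.eval_X]
      rcases mem_insert.1 hy with rfl | h
      · rw [hx, sub_self]
      · obtain ⟨a, -, rfl⟩ := mem_image.1 h
        rw [← map_pow, ZMod.pow_card, sub_self]
    · rw [hdeg, hS]; omega
  rw [hP] at hdeg
  simp at hdeg
  omega

theorem ringChar_ne {p : ℕ} [Fact p.Prime] (h2 : p ≠ 2) : ringChar (ZMod p) ≠ 2 := by
  rw [ZMod.ringChar_zmod_n]; exact h2

theorem two_ne {p : ℕ} [Fact p.Prime] (h2 : p ≠ 2) : (2 : ZMod p) ≠ 0 :=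
  Ring.two_ne_zero (ringChar_ne h2)

theorem sum_quad (p : ℕ) [Fact p.Prime] (h2 : p ≠ 2) :
    ∑ s : ZMod p, quadraticChar (ZMod p) (s ^ 2 - 4) = -1 := by
  have h20 := two_ne h2
  have h40 : (4 : ZMod p) ≠ 0 := by
    intro h
    apply h20
    have : (2 : ZMod p) * 2 = 0 := by linear_combination h
    rcases mul_eq_zero.1 this with h | h <;> exact h
  have hbij : Function.Bijective (fun x : ZMod p => 4 * x - 2) := by
    rw [← Finite.injective_iff_bijective]
    intro x y hxy
    have h : 4 * (x - y) = 0 := by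
      have : 4 * x - 2 = 4 * y - 2 := hxy
      linear_combination this
    rcases mul_eq_zero.1 h with h | h
    · exact absurd h h40
    · exact sub_eq_zero.1 h
  have hJ := jacobiSum_nontrivial_inv (quadraticChar_ne_one (F := ZMod p) (ringChar_ne h2))
  rw [(quadraticChar_isQuadratic (ZMod p)).inv, jacobiSum] at hJ
  have h1 : ∀ x : ZMod p, quadraticChar (ZMod p) ((4 * x - 2) ^ 2 - 4) =
      quadraticChar (ZMod p) (-1) *
        (quadraticChar (ZMod p) x * quadraticChar (ZMod p) (1 - x)) := by
    intro x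
    have e1 : (4 * x - 2) ^ 2 - 4 = (-1) * (x * (1 - x)) * 4 ^ 2 := by ring
    rw [e1, map_mul, map_mul, map_mul, quadraticChar_sq_one' h40, mul_one]
  rw [← Function.Bijective.sum_comp hbij (fun s => quadraticChar (ZMod p) (s ^ 2 - 4))]
  simp only [h1]
  rw [← Finset.mul_sum, hJ]
  have h3 := quadraticChar_sq_one (F := ZMod p) (a := -1) (neg_ne_zero.mpr one_ne_zero)
  linear_combination -h3

theorem charP_K {K : Type} [Field K] (p : ℕ) [Fact p.Prime] [Algebra (ZMod p) K] : CharP K p :=
  charP_of_injective_algebraMap (algebraMap (ZMod p) K).injective p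

/-- powers of a root of unity under the Frobenius map -/
theorem frob {K : Type} [Field K] {p N : ℕ} {e : ℤ} (he : e = 1 ∨ e = -1) (hpN : (p : ℤ) = N + e)
    {x u : K} (hxu : x * u = 1) (hx : x ^ N = 1) :
    (e = 1 ∧ x ^ p = x ∧ u ^ p = u) ∨ (e = -1 ∧ x ^ p = u ∧ u ^ p = x) := by
  have hx0 : x ≠ 0 := left_ne_zero_of_mul_eq_one hxu
  have hu : u ^ N = 1 := by
    have : (x * u) ^ N = 1 := by rw [hxu, one_pow]
    rwa [mul_pow, hx, one_mul] at this
  rcases he with rfl | rfl
  · left
    have hp : p = N + 1 := by omega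
    refine ⟨rfl, ?_, ?_⟩
    · rw [hp, pow_succ, hx, one_mul]
    · rw [hp, pow_succ, hu, one_mul]
  · right
    have hN : N = p + 1 := by omega
    refine ⟨rfl, ?_, ?_⟩
    · have h1 : x ^ p * x = 1 := by rw [← pow_succ, ← hN, hx]
      calc x ^ p = x ^ p * (x * u) := by rw [hxu, mul_one]
        _ = x ^ p * x * u := by ring
        _ = u := by rw [h1, one_mul]
    · have h1 : u ^ p * u = 1 := by rw [← pow_succ, ← hN, hu]
      calc u ^ p = u ^ p * (x * u) := by rw [hxu, mul_one]
        _ = u ^ p * u * x := by ring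
        _ = x := by rw [h1, one_mul]

theorem chi_val {p : ℕ} [Fact p.Prime] (a : ZMod p) :
    quadraticChar (ZMod p) a = 0 ∨ quadraticChar (ZMod p) a = 1 ∨ quadraticChar (ZMod p) a = -1 := by
  by_cases h : a = 0
  · left; rw [h, quadraticChar_zero]
  · right; exact quadraticChar_dichotomy h

theorem cn : S_CN := by
  intro p N hpf K _ _ _ _ z e h2 hN he hpN hz
  have : CharP K p := charP_K p
  have hprime : p.Prime := Fact.out
  have hz0 : z ≠ 0 := hz.ne_zero hN.ne'
  have hxu : ∀ i : ℕ, z ^ i * z⁻¹ ^ i = 1 := by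
    intro i
    rw [← mul_pow, mul_inv_cancel₀ hz0, one_pow]
  have hxN : ∀ i : ℕ, (z ^ i) ^ N = 1 := by
    intro i
    rw [← pow_mul, mul_comm, pow_mul, hz.pow_eq_one, one_pow]
  have hinj : Function.Injective (algebraMap (ZMod p) K) := (algebraMap (ZMod p) K).injective
  have hg : ∀ i : ℕ, ∃ s : ZMod p, algebraMap (ZMod p) K s = z ^ i + z⁻¹ ^ i := by
    intro i
    apply fix_frob
    rw [add_pow_char]
    rcases frob he hpN (hxu i) (hxN i) with ⟨_, h1, h3⟩ | ⟨_, h1, h3⟩
    · rw [h1, h3]
    · rw [h1, h3, add_comm]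
  choose g hg using hg
  have hset : ∀ s : ZMod p, ({i ∈ range N | z ^ i + z⁻¹ ^ i = algebraMap (ZMod p) K s} : Finset ℕ) =
      {i ∈ range N | g i = s} := by
    intro s
    refine Finset.filter_congr fun i _ => ?_
    rw [← hg i]
    exact hinj.eq_iff
  have hsum : ∑ s : ZMod p,
      (({i ∈ range N | z ^ i + z⁻¹ ^ i = algebraMap (ZMod p) K s} : Finset ℕ).card : ℤ) = N := by
    have h1 := Finset.card_eq_sum_card_fiberwise (f := g) (s := range N) (t := univ)
      (fun i _ => Finset.mem_coe.2 (Finset.mem_univ _))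
    rw [Finset.card_range] at h1
    have h3 : (N : ℤ) = ∑ s : ZMod p, (({i ∈ range N | g i = s} : Finset ℕ).card : ℤ) := by
      exact_mod_cast h1
    rw [h3]
    exact Finset.sum_congr rfl fun s _ => by rw [hset s]
  have hsum2 : ∑ s : ZMod p, (1 + e * quadraticChar (ZMod p) (s ^ 2 - 4)) = N := by
    rw [Finset.sum_add_distrib, ← Finset.mul_sum, sum_quad p h2, Finset.sum_const, Finset.card_univ,
      ZMod.card, nsmul_eq_mul, mul_one]
    linarith
  have hle : ∀ s ∈ (univ : Finset (ZMod p)),
      (({i ∈ range N | z ^ i + z⁻¹ ^ i = algebraMap (ZMod p) K s} : Finset ℕ).card : ℤ) ≤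
        1 + e * quadraticChar (ZMod p) (s ^ 2 - 4) := by
    intro s _
    rcases Finset.eq_empty_or_nonempty
      ({i ∈ range N | z ^ i + z⁻¹ ^ i = algebraMap (ZMod p) K s} : Finset ℕ) with h | ⟨j, hj⟩
    · rw [h, Finset.card_empty]
      rcases chi_val (s ^ 2 - 4) with h | h | h <;> rcases he with rfl | rfl <;> rw [h] <;> norm_num
    · obtain ⟨hj1, hj2⟩ := Finset.mem_filter.1 hj
      have hmem : ∀ i ∈ ({i ∈ range N | z ^ i + z⁻¹ ^ i = algebraMap (ZMod p) K s} : Finset ℕ),
          z ^ i = z ^ j ∨ z ^ i = z⁻¹ ^ j := by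
        intro i hi
        have hi2 := (Finset.mem_filter.1 hi).2
        have h1 : (z ^ i - z ^ j) * (z ^ i - z⁻¹ ^ j) = 0 := by
          have a1 := hxu i
          have a2 := hxu j
          have a3 : z ^ i + z⁻¹ ^ i = z ^ j + z⁻¹ ^ j := by rw [hi2, hj2]
          linear_combination z ^ i * a3 - a1 + a2
        rcases mul_eq_zero.1 h1 with h | h
        · exact Or.inl (sub_eq_zero.1 h)
        · exact Or.inr (sub_eq_zero.1 h)
      have hio : Set.InjOn (fun i : ℕ => z ^ i)
          ({i ∈ range N | z ^ i + z⁻¹ ^ i = algebraMap (ZMod p) K s} : Finset ℕ) := by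
        intro a ha b hb hab
        exact hz.pow_inj (Finset.mem_range.1 (Finset.mem_filter.1 (Finset.mem_coe.1 ha)).1)
          (Finset.mem_range.1 (Finset.mem_filter.1 (Finset.mem_coe.1 hb)).1) hab
      have hD : algebraMap (ZMod p) K (s ^ 2 - 4) = (z ^ j - z⁻¹ ^ j) ^ 2 := by
        rw [map_sub, map_pow, ← hj2, map_ofNat]
        linear_combination 4 * hxu j
      by_cases hxe : z ^ j = z⁻¹ ^ j
      · have hs : s ^ 2 - 4 = 0 := by
          apply hinj
          rw [hD, hxe, sub_self, map_zero]
          ring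
        rw [hs, quadraticChar_zero, mul_zero, add_zero]
        have h1 := Finset.card_le_card_of_injOn (t := {z ^ j}) (fun i : ℕ => z ^ i) (fun i hi => by
          rcases hmem i (Finset.mem_coe.1 hi) with h | h
          · exact Finset.mem_coe.2 (Finset.mem_singleton.2 h)
          · exact Finset.mem_coe.2 (Finset.mem_singleton.2 (h.trans hxe.symm))) hio
        rw [Finset.card_singleton] at h1
        exact_mod_cast h1
      · have hd0 : z ^ j - z⁻¹ ^ j ≠ 0 := sub_ne_zero.2 hxe
        have h1 := Finset.card_le_card_of_injOn (t := {z ^ j, z⁻¹ ^ j}) (fun i : ℕ => z ^ i)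
          (fun i hi => by
            rcases hmem i (Finset.mem_coe.1 hi) with h | h
            · exact Finset.mem_coe.2 (Finset.mem_insert.2 (Or.inl h))
            · exact Finset.mem_coe.2 (Finset.mem_insert.2 (Or.inr (Finset.mem_singleton.2 h)))) hio
        have h3 := h1.trans Finset.card_le_two
        have h4 : (({i ∈ range N | z ^ i + z⁻¹ ^ i = algebraMap (ZMod p) K s} : Finset ℕ).card : ℤ) ≤ 2 := by
          exact_mod_cast h3
        have hdp : (z ^ j - z⁻¹ ^ j) ^ p = (e : K) * (z ^ j - z⁻¹ ^ j) := by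
          rw [sub_pow_char]
          rcases frob he hpN (hxu j) (hxN j) with ⟨h5, h6, h7⟩ | ⟨h5, h6, h7⟩
          · rw [h6, h7, h5]; push_cast; ring
          · rw [h6, h7, h5]; push_cast; ring
        have hdp1 : (z ^ j - z⁻¹ ^ j) ^ (p - 1) = (e : K) := by
          have h5 : (z ^ j - z⁻¹ ^ j) ^ p = (z ^ j - z⁻¹ ^ j) ^ (p - 1) * (z ^ j - z⁻¹ ^ j) := by
            rw [← pow_succ]
            congr 1
            have := hprime.pos
            omega
          rw [h5] at hdp
          exact mul_right_cancel₀ hd0 hdp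
        have hodd : 2 * (p / 2) = p - 1 := by
          rcases hprime.eq_two_or_odd with h | h
          · exact absurd h h2
          · omega
        have hchi : ((quadraticChar (ZMod p) (s ^ 2 - 4) : ℤ) : ZMod p) = ((e : ℤ) : ZMod p) := by
          apply hinj
          rw [quadraticChar_eq_pow_of_char_ne_two' (ringChar_ne h2), ZMod.card, map_pow, hD, ← pow_mul,
            hodd, hdp1, map_intCast]
        have hchi2 : quadraticChar (ZMod p) (s ^ 2 - 4) = e := by
          have hne : s ^ 2 - 4 ≠ 0 := by
            intro h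
            rw [h, map_zero] at hD
            exact hd0 (pow_eq_zero_iff (two_ne_zero) |>.1 hD.symm)
          have h20 := two_ne h2
          rcases quadraticChar_dichotomy hne with h | h <;> rcases he with rfl | rfl
          · exact h
          · exfalso
            rw [h] at hchi
            apply h20
            push_cast at hchi
            linear_combination hchi
          · exfalso
            rw [h] at hchi
            apply h20
            push_cast at hchi
            linear_combination -hchi
          · exact h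
        rw [hchi2]
        have : e * e = 1 := by rcases he with rfl | rfl <;> norm_num
        linarith
  intro s
  exact (Finset.sum_eq_sum_iff_of_le hle).1 (hsum.trans hsum2.symm) s (Finset.mem_univ s)

end Pool.Agent.Q144.E8
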