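import Pool.Agent.Q267.E8.Stm
import Pool.Agent.Q144.E8.CN

set_option autoImplicit false

/-!
Project E8 (helper267), job LK (helper144): the character sum over the roots of unity is a sum over
the prime field.
-/

namespace Pool.Agent.Q144.E8

open Finset Pool.Agent.Q267.CDE Pool.Agent.Q267.MW Pool.Agent.Q267.E8

theorem lk : S_LK := by
  intro p N hpf K _ _ _ _ z a e h2 hN h4N he hpN hchi1 hT hcn hch
  have : CharP K p := charP_K p
  have hz : IsPrimitiveRoot z N := hT.prim
  have hz0 : z ≠ 0 := hz.ne_zero hN.ne'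
  have hxu : ∀ i : ℕ, z ^ i * z⁻¹ ^ i = 1 := by
    intro i
    rw [← mul_pow, mul_inv_cancel₀ hz0, one_pow]
  have hxN : ∀ i : ℕ, (z ^ i) ^ N = 1 := by
    intro i
    rw [← pow_mul, mul_comm, pow_mul, hz.pow_eq_one, one_pow]
  have hinj : Function.Injective (algebraMap (ZMod p) K) := (algebraMap (ZMod p) K).injective
  have hg : ∀ i : ℕ, ∃ s : ZMod p, algebraMap (ZMod p) K s = z ^ i + z⁻¹ ^ i := by
    intro i
    apply fix_frob
    rw [add_pow_char]
    rcases frob he hpN (hxu i) (hxN i) with ⟨_, h1, h3⟩ | ⟨_, h1, h3⟩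
    · rw [h1, h3]
    · rw [h1, h3, add_comm]
  choose g hg using hg
  have ha : ∀ i, a i = g i ^ 2 - 2 := by
    intro i
    apply hinj
    rw [hT.val, map_sub, map_pow, hg, map_ofNat]
    have h1 := hxu i
    have e1 : z ^ (2 * i) = (z ^ i) ^ 2 := by rw [mul_comm, pow_mul]
    have e2 : z⁻¹ ^ (2 * i) = (z⁻¹ ^ i) ^ 2 := by rw [mul_comm, pow_mul]
    rw [e1, e2]
    linear_combination -2 * h1
  have h20 : (2 : ZMod p) ≠ 0 := two_ne h2
  have h2K : (2 : K) ≠ 0 := by
    intro h
    apply h20
    apply hinj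
    rw [map_ofNat, map_zero, h]
  have hset : ∀ s : ZMod p, ({i ∈ range N | z ^ i + z⁻¹ ^ i = algebraMap (ZMod p) K s} : Finset ℕ) =
      {i ∈ range N | g i = s} := by
    intro s
    refine Finset.filter_congr fun i _ => ?_
    rw [← hg i]
    exact hinj.eq_iff
  have hcard : ∀ s : ZMod p, (({i ∈ range N | g i = s} : Finset ℕ).card : ℤ) =
      1 + e * quadraticChar (ZMod p) (s ^ 2 - 4) := by
    intro s
    rw [← hset s]
    exact hcn s
  have hev : ∀ i ∈ range N, g i = -2 → ((-1 : ℤ)) ^ i = 1 := by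
    intro i hi hgi
    have h1 : z ^ i + z⁻¹ ^ i = -2 := by
      rw [← hg i, hgi, map_neg, map_ofNat]
    have h3 : (z ^ i + 1) ^ 2 = 0 := by
      have h5 := hxu i
      linear_combination z ^ i * h1 - h5
    have h4 : z ^ i = -1 := by
      have := pow_eq_zero_iff (two_ne_zero) |>.1 h3
      linear_combination this
    have h5 : z ^ (2 * i) = 1 := by
      rw [mul_comm, pow_mul, h4]
      ring
    have h6 : N ∣ 2 * i := (hz.pow_eq_one_iff_dvd _).1 h5
    have h7 : i ≠ 0 := by
      rintro rfl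
      rw [pow_zero] at h4
      apply h2K
      linear_combination h4
    have hiN := Finset.mem_range.1 hi
    obtain ⟨k, hk⟩ := h6
    obtain ⟨l, hl⟩ := h4N
    have hk1 : k = 1 := by
      have hk0 : k ≠ 0 := by
        rintro rfl
        omega
      have hk2 : k < 2 := by
        by_contra hcon
        push Not at hcon
        have : N * 2 ≤ N * k := Nat.mul_le_mul le_rfl hcon
        omega
      omega
    subst hk1
    have h8 : i = 2 * l := by omega
    rw [h8, pow_mul]
    norm_num
  have hinner : ∀ s : ZMod p,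
      ∑ i ∈ range N with g i = s, (-1 : ℤ) ^ i * quadraticChar (ZMod p) (a i) =
        quadraticChar (ZMod p) ((s + 2) * (s ^ 2 - 2)) +
        e * quadraticChar (ZMod p) ((s - 2) * (s ^ 2 - 2)) +
        (if s = -2 then quadraticChar (ZMod p) 2 -
          e * quadraticChar (ZMod p) ((s - 2) * (s ^ 2 - 2)) else 0) := by
    intro s
    by_cases hs : s = -2
    · rw [if_pos hs]
      have h1 : ∀ i ∈ ({i ∈ range N | g i = s} : Finset ℕ),
          (-1 : ℤ) ^ i * quadraticChar (ZMod p) (a i) = quadraticChar (ZMod p) 2 := by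
        intro i hi
        obtain ⟨h3, h4⟩ := Finset.mem_filter.1 hi
        rw [hev i h3 (h4.trans hs), one_mul, ha, h4, hs]
        congr 1
        ring
      rw [Finset.sum_congr rfl h1, Finset.sum_const, nsmul_eq_mul, hcard s, hs]
      have e1 : (-2 : ZMod p) ^ 2 - 4 = 0 := by ring
      have e2 : ((-2 : ZMod p) + 2) * ((-2) ^ 2 - 2) = 0 := by ring
      rw [e1, e2, quadraticChar_zero]
      ring
    · rw [if_neg hs]
      have h1 : ∀ i ∈ ({i ∈ range N | g i = s} : Finset ℕ),
          (-1 : ℤ) ^ i * quadraticChar (ZMod p) (a i) =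
            quadraticChar (ZMod p) ((s + 2) * (s ^ 2 - 2)) := by
        intro i hi
        obtain ⟨h3, h4⟩ := Finset.mem_filter.1 hi
        have h5 := hch i s (by rw [← hg i, h4]) hs
        rw [ha, h4, map_mul, h5]
      rw [Finset.sum_congr rfl h1, Finset.sum_const, nsmul_eq_mul, hcard s]
      have hs2 : s + 2 ≠ 0 := by
        intro h
        apply hs
        linear_combination h
      have h6 := quadraticChar_sq_one (F := ZMod p) hs2
      have e1 : s ^ 2 - 4 = (s + 2) * (s - 2) := by ring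
      rw [e1, map_mul, map_mul, map_mul]
      linear_combination e * quadraticChar (ZMod p) (s - 2) * quadraticChar (ZMod p) (s ^ 2 - 2) * h6
  have hT1 : T p N a = ∑ s : ZMod p,
      ∑ i ∈ range N with g i = s, (-1 : ℤ) ^ i * quadraticChar (ZMod p) (a i) :=
    (Finset.sum_fiberwise (range N) g _).symm
  have hB : ∑ s : ZMod p, quadraticChar (ZMod p) ((s - 2) * (s ^ 2 - 2)) =
      e * ∑ s : ZMod p, quadraticChar (ZMod p) ((s + 2) * (s ^ 2 - 2)) := by
    rw [← Equiv.sum_comp (Equiv.neg (ZMod p))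
      (fun s => quadraticChar (ZMod p) ((s - 2) * (s ^ 2 - 2))), Finset.mul_sum]
    refine Finset.sum_congr rfl fun s _ => ?_
    rw [Equiv.neg_apply]
    have e1 : (-s - 2) * ((-s) ^ 2 - 2) = (-1) * ((s + 2) * (s ^ 2 - 2)) := by ring
    rw [e1, map_mul, hchi1]
  have hee : e * e = 1 := by rcases he with rfl | rfl <;> norm_num
  have hm : quadraticChar (ZMod p) ((-2 - 2) * ((-2) ^ 2 - 2)) = e * quadraticChar (ZMod p) 2 := by
    have e1 : ((-2 : ZMod p) - 2) * ((-2) ^ 2 - 2) = (-1) * (2 * 2 ^ 2) := by ring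
    rw [e1, map_mul, hchi1, map_mul, quadraticChar_sq_one' h20, mul_one]
  rw [hT1]
  simp only [hinner]
  rw [Finset.sum_add_distrib, Finset.sum_add_distrib, ← Finset.mul_sum, hB, Finset.sum_ite_eq' univ,
    if_pos (Finset.mem_univ _), hm]
  linear_combination (∑ s : ZMod p, quadraticChar (ZMod p) ((s + 2) * (s ^ 2 - 2)) -
    quadraticChar (ZMod p) 2) * hee

end Pool.Agent.Q144.E8
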